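import Pool.Agent.Helper61.NW.Goals2

/-!
# Project NW+: line systems from a permutation which raises the height by `H`
-/

set_option autoImplicit false

namespace Pool.Agent.Helper15.NW

open Pool.Agent.Helper52.Wq2 Pool.Agent.Helper61.NW

universe u

theorem X_zpow {Γ : Type u} {φ : Equiv.Perm Γ} {X : Γ → ℤ} {H : ℤ}
    (hX : ∀ g, X (φ g) = X g + H) (a : ℤ) (g : Γ) : X ((φ ^ a) g) = X g + a * H := by
  induction a using Int.induction_on with
  | zero => simp
  | succ k ih =>
    rw [add_comm, zpow_add, zpow_one, Equiv.Perm.mul_apply, hX, ih]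
    ring
  | pred k ih =>
    have h1 := hX ((φ ^ (-(k : ℤ) - 1)) g)
    rw [← Equiv.Perm.mul_apply, ← zpow_one_add] at h1
    have e : 1 + (-(k : ℤ) - 1) = -(k : ℤ) := by ring
    rw [e, ih] at h1
    linarith

theorem f_zpow {Γ : Type u} {φ : Equiv.Perm Γ} {f : Γ → Γ} {e : ℤ}
    (hf : ∀ x, f (φ x) = (φ ^ e) (f x)) (a : ℤ) (x : Γ) :
    f ((φ ^ a) x) = (φ ^ (e * a)) (f x) := by
  induction a using Int.induction_on with
  | zero => simp
  | succ k ih =>
    have e1 : e * ((k : ℤ) + 1) = e + e * k := by ring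
    rw [add_comm (k : ℤ) 1, zpow_add, zpow_one, Equiv.Perm.mul_apply, hf, ih, add_comm (1 : ℤ), e1,
      zpow_add, Equiv.Perm.mul_apply]
  | pred k ih =>
    have h1 := hf ((φ ^ (-(k : ℤ) - 1)) x)
    rw [← Equiv.Perm.mul_apply, ← zpow_one_add] at h1
    have e0 : 1 + (-(k : ℤ) - 1) = -(k : ℤ) := by ring
    rw [e0, ih] at h1
    have e1 : e * (-(k : ℤ)) = e + e * (-(k : ℤ) - 1) := by ring
    rw [e1, zpow_add, Equiv.Perm.mul_apply] at h1
    exact ((φ ^ e).injective h1).symm

theorem lsys_of_perm {Γ : Type u} (K : SimpleGraph Γ) (φ : Equiv.Perm Γ) (X : Γ → ℤ)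
    (H n m : ℕ) (hH : 0 < H) (hm : 0 < m) (hn : 0 < n) (hX : ∀ g, X (φ g) = X g + H)
    (hstep : ∀ g, K.Adj g (φ g)) (hnear : ∀ g g', K.Adj g g' → |X g - X g'| ≤ H)
    (hcard : Nat.card {g : Γ // 0 ≤ X g ∧ X g < H} = n)
    (hper : ∀ g g', K.Adj g g' ↔ K.Adj ((φ ^ m) g) ((φ ^ m) g'))
    (hconn : Conn K Set.univ)
    (htr : ∀ g g', ∃ (f : K ≃g K) (e c : ℤ), (e = 1 ∨ e = -1) ∧
      (∀ x, f (φ x) = (φ ^ e) (f x)) ∧ f g = (φ ^ c) g') :
    ∃ G : SimpleGraph (ℤ × Fin n), Lsys n m G ∧ Nonempty (K ≃g G) := by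
  classical
  have hH' : (0 : ℤ) < H := by exact_mod_cast hH
  have hfin : Finite {g : Γ // 0 ≤ X g ∧ X g < H} :=
    Nat.finite_of_card_ne_zero (by rw [hcard]; exact hn.ne')
  let e0 : {g : Γ // 0 ≤ X g ∧ X g < H} ≃ Fin n := Finite.equivFinOfCardEq hcard
  let gg : Fin n → Γ := fun i => (e0.symm i).1
  have gg1 : ∀ i, 0 ≤ X (gg i) ∧ X (gg i) < H := fun i => (e0.symm i).2
  have gginj : Function.Injective gg := fun i j h => e0.symm.injective (Subtype.ext h)
  -- two translates of base points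
  have base : ∀ (a b : ℤ) (i j : Fin n), (φ ^ a) (gg i) = (φ ^ b) (gg j) → a = b ∧ i = j := by
    intro a b i j h
    have h1 := congrArg X h
    rw [X_zpow hX, X_zpow hX] at h1
    have h2 := gg1 i
    have h3 := gg1 j
    have h4 : a = b := by
      have : (a - b) * H < H ∧ -(H : ℤ) < (a - b) * H := by constructor <;> nlinarith
      have h5 : a - b < 1 := by
        by_contra h6
        have : (1 : ℤ) * H ≤ (a - b) * H := mul_le_mul_of_nonneg_right (by omega) hH'.le
        omega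
      have h7 : -1 < a - b := by
        by_contra h6
        have : (a - b) * H ≤ (-1 : ℤ) * H := mul_le_mul_of_nonneg_right (by omega) hH'.le
        omega
      omega
    subst h4
    exact ⟨rfl, gginj ((φ ^ a).injective h)⟩
  let F : ℤ × Fin n → Γ := fun p => (φ ^ p.1) (gg p.2)
  have hF : Function.Bijective F := by
    constructor
    · rintro ⟨a, i⟩ ⟨b, j⟩ h
      obtain ⟨h1, h2⟩ := base a b i j h
      rw [h1, h2]
    · intro g
      have h1 := X_zpow hX (-(X g / H)) g
      have h2 := Int.emod_add_mul_ediv (X g) H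
      have h3 := Int.emod_nonneg (X g) hH'.ne'
      have h4 := Int.emod_lt_of_pos (X g) hH'
      have h5 : X ((φ ^ (-(X g / H))) g) = X g % H := by
        rw [h1]
        linarith [mul_comm (H : ℤ) (X g / H), neg_mul (X g / H) (H : ℤ)]
      refine ⟨(X g / H, e0 ⟨(φ ^ (-(X g / H))) g, by rw [h5]; exact ⟨h3, h4⟩⟩), ?_⟩
      change (φ ^ (X g / H)) ((e0.symm (e0 _)).1) = g
      rw [Equiv.symm_apply_apply]
      change (φ ^ (X g / H)) ((φ ^ (-(X g / H))) g) = g
      rw [← Equiv.Perm.mul_apply, ← zpow_add, add_neg_cancel, zpow_zero]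
      rfl
  let E : ℤ × Fin n ≃ Γ := Equiv.ofBijective F hF
  have hE : ∀ a i, E (a, i) = (φ ^ a) (gg i) := fun a i => rfl
  refine ⟨K.comap E, ?_, ⟨(SimpleGraph.Iso.comap E K).symm⟩⟩
  refine ⟨hn, hm, ?_, ?_, ?_, ?_, ?_⟩
  · intro a j
    change K.Adj ((φ ^ a) (gg j)) ((φ ^ (a + 1)) (gg j))
    rw [add_comm, zpow_add, zpow_one, Equiv.Perm.mul_apply]
    exact hstep _
  · intro a b i j h
    have h1 := hnear _ _ h
    have h2 := gg1 i
    have h3 := gg1 j
    rw [hE, hE, X_zpow hX, X_zpow hX, abs_le] at h1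
    rw [abs_le]
    constructor
    · by_contra h6
      have : (a - b) * H ≤ (-2 : ℤ) * H := mul_le_mul_of_nonneg_right (by omega) hH'.le
      nlinarith
    · by_contra h6
      have : (2 : ℤ) * H ≤ (a - b) * H := mul_le_mul_of_nonneg_right (by omega) hH'.le
      nlinarith
  · intro a b i j
    change K.Adj ((φ ^ a) (gg i)) ((φ ^ b) (gg j)) ↔
      K.Adj ((φ ^ (a + m)) (gg i)) ((φ ^ (b + m)) (gg j))
    rw [hper, add_comm a, add_comm b, zpow_add, zpow_add, Equiv.Perm.mul_apply,
      Equiv.Perm.mul_apply, zpow_natCast]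
  · have h1 := Conn.image (G' := K.comap E) hconn E.symm (by
      intro a _ b _ hab
      right
      change K.Adj (E (E.symm a)) (E (E.symm b))
      rw [Equiv.apply_symm_apply, Equiv.apply_symm_apply]
      exact hab)
    rwa [Set.image_univ, E.symm.surjective.range_eq] at h1
  · intro i j
    obtain ⟨f, e, c0, he, hf, hfi⟩ := htr (gg i) (gg j)
    let τ0 : Fin n → Fin n := fun k => (E.symm (f (gg k))).2
    let c : Fin n → ℤ := fun k => (E.symm (f (gg k))).1
    have hfk : ∀ k, f (gg k) = (φ ^ c k) (gg (τ0 k)) := by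
      intro k
      have : E (E.symm (f (gg k))) = f (gg k) := Equiv.apply_symm_apply _ _
      rw [← this]
      rfl
    have hfa : ∀ (a : ℤ) (k : Fin n), f ((φ ^ a) (gg k)) = (φ ^ (e * a + c k)) (gg (τ0 k)) := by
      intro a k
      rw [f_zpow hf, hfk, zpow_add, Equiv.Perm.mul_apply]
    have hee : e * e = 1 := by rcases he with rfl | rfl <;> rfl
    have hτ : Function.Injective τ0 := by
      intro k k' h
      have h1 : f ((φ ^ (0 : ℤ)) (gg k)) = f ((φ ^ (e * (c k - c k'))) (gg k')) := by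
        rw [hfa, hfa, h]
        congr 2
        rw [← mul_assoc, hee]
        ring
      exact (base _ _ _ _ (f.injective h1)).2
    let τ : Equiv.Perm (Fin n) := Equiv.ofBijective τ0 (Finite.injective_iff_bijective.1 hτ)
    let f' : K.comap E ≃g K.comap E :=
      { toEquiv := (E.trans f.toEquiv).trans E.symm
        map_rel_iff' := by
          intro p p'
          change K.Adj (E (E.symm (f (E p)))) (E (E.symm (f (E p')))) ↔ K.Adj (E p) (E p')
          rw [Equiv.apply_symm_apply, Equiv.apply_symm_apply]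
          exact f.map_rel_iff }
    refine ⟨f', τ, e, c, he, ?_, ?_⟩
    · have h1 := hfk i
      rw [hfi] at h1
      exact (base _ _ _ _ h1).2.symm
    · intro a k
      change E.symm (f ((φ ^ a) (gg k))) = (e * a + c k, τ0 k)
      rw [Equiv.symm_apply_eq, hfa]
      rfl

end Pool.Agent.Helper15.NW
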