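import Pool.Agent.Helper52.Wq2.Stars

/-!
# Project NW, packet CRX: the centre strand walks to and fro (combinatorial half)
-/

set_option autoImplicit false

namespace Pool.Agent.Helper15.NW

open Pool.Agent.Helper52.Wq2

/-- The line of a strand when the centre is on line `u`. -/
def ln (u : ℕ) : Option ℕ → ℕ
  | none => u
  | some i => if u ≤ 2 * i + 1 then 2 * i + 2 else 2 * i + 1

theorem ln_inj {u : ℕ} {o o' : Option ℕ} (h : ln u o = ln u o') : o = o' := by
  cases o with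
  | none =>
    cases o' with
    | none => rfl
    | some i =>
      exfalso
      simp only [ln] at h
      split_ifs at h <;> omega
  | some i =>
    cases o' with
    | none =>
      exfalso
      simp only [ln] at h
      split_ifs at h <;> omega
    | some j =>
      simp only [ln] at h
      have : i = j := by
        split_ifs at h <;> omega
      rw [this]

theorem ln_le {u q : ℕ} (hu : u ≤ 2 * q + 2) {o : Option ℕ} (ho : ∀ i, o = some i → i ≤ q) :
    ln u o ≤ 2 * q + 2 := by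
  cases o with
  | none => exact hu
  | some i =>
    have := ho i rfl
    simp only [ln]
    split_ifs <;> omega

/-- A strand which is a leaf moves only in a swap. -/
theorem ln_move {u v i : ℕ} (huv : v = u + 1 ∨ u = v + 1) (h : ln u (some i) ≠ ln v (some i)) :
    ((u = 2 * i + 1 ∧ v = 2 * i + 2) ∨ (u = 2 * i + 2 ∧ v = 2 * i + 1)) ∧
      ln u (some i) = v ∧ ln v (some i) = u := by
  simp only [ln] at h ⊢
  split_ifs at h ⊢ <;> omega

/-- The triangular wave. -/
def wv (N : ℕ) (t : ℤ) : ℕ :=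
  if t % (2 * N : ℤ) ≤ N then (t % (2 * N : ℤ)).toNat else (2 * N - t % (2 * N : ℤ)).toNat

theorem emod_succ {K t : ℤ} (hK : 0 < K) :
    (t + 1) % K = if t % K + 1 = K then 0 else t % K + 1 := by
  have h1 := Int.emod_nonneg t hK.ne'
  have h2 := Int.emod_lt_of_pos t hK
  have h3 := Int.emod_add_mul_ediv t K
  split_ifs with h
  · have e : t + 1 = 0 + K * (t / K + 1) := by linarith [mul_add K (t / K) 1, mul_one K]
    rw [e, Int.add_mul_emod_self_left]
    rfl
  · have e : t + 1 = (t % K + 1) + K * (t / K) := by linarith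
    conv_lhs => rw [e]
    rw [Int.add_mul_emod_self_left]
    exact Int.emod_eq_of_lt (by omega) (by omega)

theorem wv_le {N : ℕ} (hN : 0 < N) (t : ℤ) : wv N t ≤ N := by
  have h1 := Int.emod_nonneg t (show (2 * N : ℤ) ≠ 0 by omega)
  have h2 := Int.emod_lt_of_pos t (show (0 : ℤ) < 2 * N by omega)
  unfold wv
  split_ifs <;> omega

theorem wv_step {N : ℕ} (hN : 0 < N) (t : ℤ) :
    wv N (t + 1) = wv N t + 1 ∨ wv N t = wv N (t + 1) + 1 := by
  have h1 := Int.emod_nonneg t (show (2 * N : ℤ) ≠ 0 by omega)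
  have h2 := Int.emod_lt_of_pos t (show (0 : ℤ) < 2 * N by omega)
  unfold wv
  rw [emod_succ (show (0 : ℤ) < 2 * N by omega)]
  split_ifs <;> omega

theorem wv_val {N : ℕ} (x : ℤ) (r : ℕ) (hr : r ≤ N) (hN : 0 < N) :
    wv N (x * (2 * N) + r) = r := by
  have e : (x * (2 * N) + r) % (2 * N : ℤ) = r := by
    rw [add_comm, Int.add_mul_emod_self_right]
    exact Int.emod_eq_of_lt (by omega) (by omega)
  unfold wv
  rw [e]
  split_ifs <;> omega

theorem slot_unique {M t t' y : ℤ} (hM : 0 < M) (h1 : t * M ≤ y) (h2 : y < (t + 1) * M)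
    (h3 : t' * M ≤ y) (h4 : y < (t' + 1) * M) : t = t' := by
  have a : t < t' + 1 := lt_of_mul_lt_mul_right (lt_of_le_of_lt h1 h4) hM.le
  have b : t' < t + 1 := lt_of_mul_lt_mul_right (lt_of_le_of_lt h3 h2) hM.le
  omega

/-- The graph of the slots. -/
def Slot (N q : ℕ) : SimpleGraph (ℤ × Option (Fin (q + 1))) :=
  SimpleGraph.fromRel (fun a b => (a.2 = b.2 ∧ b.1 = a.1 + 1) ∨
    (a.1 = b.1 ∧ a.2 = none ∧ ∃ i : Fin (q + 1), b.2 = some i ∧ wv N a.1 = 2 * i + 1 ∧
      wv N (a.1 + 1) = 2 * i + 2))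

theorem star_slot (q : ℕ) : Mn (StarZ (Fin q)) (Slot (2 * q + 2) q) := by
  have hK : (0 : ℤ) < 2 * ((2 * q + 2 : ℕ) : ℤ) := by positivity
  generalize hKd : (2 * ((2 * q + 2 : ℕ) : ℤ)) = K at hK
  have hK2 : (4 : ℤ) ≤ K := by omega
  refine ⟨fun a => {v | ∃ y, (a.1 * K ≤ y ∧ y < (a.1 + 1) * K) ∧
    (y, a.2.map Fin.castSucc) = v}, ?_, ?_, ?_⟩
  · intro a
    have e : (a.1 + 1) * K = a.1 * K + K := by ring
    refine conn_line _ _ (a.1 * K) ⟨le_rfl, by rw [e]; omega⟩ ?_ ?_ ?_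
    · rintro x hx ⟨h1, h2⟩
      exact ⟨hx, by omega⟩
    · rintro x hx ⟨h1, h2⟩
      exact ⟨by omega, by rw [e]; omega⟩
    · intro x _ _
      rw [Slot, SimpleGraph.fromRel_adj]
      refine ⟨?_, Or.inl (Or.inl ⟨rfl, rfl⟩)⟩
      intro h
      have := congrArg Prod.fst h
      simp at this
  · rintro a b _ ⟨y, ⟨h1, h2⟩, rfl⟩ ⟨y', ⟨h3, h4⟩, h5⟩
    rw [Prod.mk.injEq] at h5
    obtain ⟨rfl, h6⟩ := h5
    have h7 := slot_unique hK h1 h2 h3 h4
    have h8 : a.2 = b.2 :=
      (Option.map_injective (Fin.castSucc_injective q) h6).symm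
    exact Prod.ext h7 h8
  · intro a b hab
    rw [StarZ, SimpleGraph.fromRel_adj] at hab
    obtain ⟨hne, hab⟩ := hab
    have key : ∀ a b : ℤ × Option (Fin q), a ≠ b →
        ((a.2 = b.2 ∧ b.1 = a.1 + 1) ∨ (a.1 = b.1 ∧ a.2 = none)) →
        ∃ x ∈ {v | ∃ y, (a.1 * K ≤ y ∧ y < (a.1 + 1) * K) ∧ (y, a.2.map Fin.castSucc) = v},
        ∃ z ∈ {v | ∃ y, (b.1 * K ≤ y ∧ y < (b.1 + 1) * K) ∧ (y, b.2.map Fin.castSucc) = v},
          (Slot (2 * q + 2) q).Adj x z := by
      rintro ⟨x, o⟩ ⟨x', o'⟩ hne h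
      rcases h with ⟨h1, h2⟩ | ⟨h1, h2⟩
      · simp only at h1 h2
        subst h1 h2
        have e : (x + 1) * K = x * K + K := by ring
        have e' : (x + 1 + 1) * K = x * K + K + K := by ring
        refine ⟨_, ⟨(x + 1) * K - 1, ⟨?_, ?_⟩, rfl⟩, _, ⟨(x + 1) * K, ⟨le_rfl, ?_⟩, rfl⟩, ?_⟩
        · simp only; omega
        · simp only; omega
        · simp only; omega
        · rw [Slot, SimpleGraph.fromRel_adj]
          refine ⟨?_, Or.inl (Or.inl ⟨rfl, ?_⟩)⟩
          · intro h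
            have := congrArg Prod.fst h
            simp only at this
            omega
          · simp only; omega
      · simp only at h1 h2
        subst h1 h2
        cases o' with
        | none => exact absurd rfl hne
        | some i =>
          have e : (x + 1) * K = x * K + K := by ring
          have hi := i.2
          refine ⟨_, ⟨x * K + (2 * (i : ℕ) + 1 : ℕ), ⟨?_, ?_⟩, rfl⟩, _,
            ⟨x * K + (2 * (i : ℕ) + 1 : ℕ), ⟨?_, ?_⟩, rfl⟩, ?_⟩
          · simp only; omega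
          · simp only; omega
          · simp only; omega
          · simp only; omega
          · rw [Slot, SimpleGraph.fromRel_adj]
            refine ⟨?_, Or.inl (Or.inr ⟨rfl, rfl, Fin.castSucc i, rfl, ?_, ?_⟩)⟩
            · intro h
              have := congrArg Prod.snd h
              simp at this
            · simp only [Fin.val_castSucc]
              rw [← hKd]
              exact wv_val x _ (by omega) (by omega)
            · simp only [Fin.val_castSucc]
              rw [← hKd, add_assoc]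
              have e2 : (((2 * (i : ℕ) + 1 : ℕ) : ℤ) + 1) = ((2 * (i : ℕ) + 2 : ℕ) : ℤ) := by
                push_cast; ring
              rw [e2]
              exact wv_val x _ (by omega) (by omega)
    rcases hab with h | h
    · exact key a b hne h
    · obtain ⟨x, hx, z, hz, hxz⟩ := key b a hne.symm h
      exact ⟨z, hz, x, hx, hxz.symm⟩

theorem slot_model {V : Type*} (G : SimpleGraph V) (q m : ℕ) (hm : 0 < m) (P : ℤ → ℕ → V)
    (inj : ∀ y y' j j', j ≤ 2 * q + 2 → j' ≤ 2 * q + 2 → P y j = P y' j' → y = y' ∧ j = j')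
    (vert : ∀ y j, j ≤ 2 * q + 2 → G.Adj (P y j) (P (y + 1) j))
    (hop : ∀ j, j < 2 * q + 2 → ∃ a d : ℤ, 0 ≤ a ∧ a < m ∧ |d| ≤ 1 ∧
      ∀ k : ℤ, G.Adj (P (a + k * m) j) (P (a + d + k * m) (j + 1)))
    (crs : ∀ i, i ≤ q → ∃ a : ℤ, 0 ≤ a ∧ a < m ∧ ∀ k : ℤ,
      G.Adj (P (a + k * m) (2 * i + 1)) (P (a + 1 + k * m) (2 * i + 2)) ∧
      G.Adj (P (a + 1 + k * m) (2 * i + 1)) (P (a + k * m) (2 * i + 2))) :
    Mn (Slot (2 * q + 2) q) G := by
  classical
  have hm' : (0 : ℤ) < m := by exact_mod_cast hm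
  have hN : 0 < 2 * q + 2 := by omega
  -- the data of a step
  have step : ∀ t : ℤ, ∃ A B C₁ C₂ : ℤ, 0 ≤ A ∧ A < 4 * m ∧ 0 ≤ B ∧ B < 4 * m ∧
      G.Adj (P (t * (4 * m) + A) (wv (2 * q + 2) t))
        (P (t * (4 * m) + B) (wv (2 * q + 2) (t + 1))) ∧
      ∀ i, ((wv (2 * q + 2) t = 2 * i + 1 ∧ wv (2 * q + 2) (t + 1) = 2 * i + 2) ∨
        (wv (2 * q + 2) t = 2 * i + 2 ∧ wv (2 * q + 2) (t + 1) = 2 * i + 1)) →
        A < B ∧ G.Adj (P (t * (4 * m) + A) (wv (2 * q + 2) (t + 1)))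
          (P (t * (4 * m) + B) (wv (2 * q + 2) t)) ∧ B ≤ C₁ ∧ C₁ < 4 * m ∧ B ≤ C₂ ∧
          C₂ < 4 * m ∧ G.Adj (P (t * (4 * m) + C₁) (wv (2 * q + 2) t))
          (P (t * (4 * m) + C₂) (wv (2 * q + 2) (t + 1))) := by
    intro t
    have hu := wv_le hN t
    have hv := wv_le hN (t + 1)
    have huv := wv_step hN t
    generalize wv (2 * q + 2) t = u at hu huv ⊢
    generalize wv (2 * q + 2) (t + 1) = v at hv huv ⊢
    obtain ⟨w, hw, hwu⟩ : ∃ w, w < 2 * q + 2 ∧ ((u = w ∧ v = w + 1) ∨ (u = w + 1 ∧ v = w)) := by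
      rcases huv with h | h
      · exact ⟨u, by omega, Or.inl ⟨rfl, h⟩⟩
      · exact ⟨v, by omega, Or.inr ⟨h, rfl⟩⟩
    rcases Nat.even_or_odd' w with ⟨i, rfl | rfl⟩
    · -- a move of the centre
      obtain ⟨a, d, ha, ha', hd, had⟩ := hop (2 * i) hw
      have hk := had (4 * t + 1)
      rw [abs_le] at hd
      have e1 : a + (4 * t + 1) * (m : ℤ) = t * (4 * m) + (a + m) := by ring
      have e2 : a + d + (4 * t + 1) * (m : ℤ) = t * (4 * m) + (a + d + m) := by ring
      rw [e1, e2] at hk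
      rcases hwu with ⟨rfl, rfl⟩ | ⟨rfl, rfl⟩
      · refine ⟨a + m, a + d + m, 0, 0, by omega, by omega, by omega, by omega, hk, ?_⟩
        rintro j (⟨h1, h2⟩ | ⟨h1, h2⟩) <;> omega
      · refine ⟨a + d + m, a + m, 0, 0, by omega, by omega, by omega, by omega, hk.symm, ?_⟩
        rintro j (⟨h1, h2⟩ | ⟨h1, h2⟩) <;> omega
    · -- a swap
      obtain ⟨a, ha, ha', had⟩ := crs i (by omega)
      have hk := had (4 * t + 1)
      have hk' := had (4 * t + 2)
      have e1 : a + (4 * t + 1) * (m : ℤ) = t * (4 * m) + (a + m) := by ring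
      have e2 : a + 1 + (4 * t + 1) * (m : ℤ) = t * (4 * m) + (a + m + 1) := by ring
      have e3 : a + (4 * t + 2) * (m : ℤ) = t * (4 * m) + (a + m + m) := by ring
      have e4 : a + 1 + (4 * t + 2) * (m : ℤ) = t * (4 * m) + (a + m + m + 1) := by ring
      rw [e1, e2] at hk
      rw [e3, e4] at hk'
      have e5 : 2 * i + 1 + 1 = 2 * i + 2 := rfl
      rcases hwu with ⟨rfl, rfl⟩ | ⟨rfl, rfl⟩
      · refine ⟨a + m, a + m + 1, a + m + m, a + m + m + 1, by omega, by omega, by omega,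
          by omega, hk.1, ?_⟩
        intro j _
        exact ⟨by omega, hk.2.symm, by omega, by omega, by omega, by omega, hk'.1⟩
      · refine ⟨a + m, a + m + 1, a + m + m, a + m + m + 1, by omega, by omega, by omega,
          by omega, hk.2.symm, ?_⟩
        intro j _
        exact ⟨by omega, hk.1, by omega, by omega, by omega, by omega, hk'.2.symm⟩
  choose A B C₁ C₂ hA0 hA1 hB0 hB1 hAB hsw using step
  generalize hM : (4 * m : ℤ) = M at *
  have hMpos : 0 < M := by omega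
  have hM4 : 4 ≤ M := by omega
  -- the ends of the pieces
  let nm : Option (Fin (q + 1)) → Option ℕ := fun o => o.map Fin.val
  have hnm : Function.Injective nm := Option.map_injective Fin.val_injective
  have hnmle : ∀ (o : Option (Fin (q + 1))) (i : ℕ), nm o = some i → i ≤ q := by
    intro o i h
    cases o with
    | none => exact absurd h (by simp [nm])
    | some j =>
      have : (j : ℕ) = i := by simpa [nm] using h
      have := j.2
      omega
  let L : ℤ → Option (Fin (q + 1)) → ℕ := fun t o => ln (wv (2 * q + 2) t) (nm o)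
  have hLle : ∀ t o, L t o ≤ 2 * q + 2 := fun t o => ln_le (wv_le hN t) (hnmle o)
  have hLinj : ∀ t o o', L t o = L t o' → o = o' := fun t o o' h => hnm (ln_inj h)
  let E₁ : ℤ → Option (Fin (q + 1)) → ℤ := fun t o => if L t o = L (t + 1) o then M - 1 else A t
  let E₂ : ℤ → Option (Fin (q + 1)) → ℤ := fun t o => if L t o = L (t + 1) o then 0 else B t
  have hE1 : ∀ t o, 0 ≤ E₁ t o ∧ E₁ t o < M := by
    intro t o
    have h1 := hA0 t
    have h2 := hA1 t
    simp only [E₁]
    split_ifs <;> constructor <;> omega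
  have hE2 : ∀ t o, 0 ≤ E₂ t o ∧ E₂ t o < M := by
    intro t o
    have h1 := hB0 t
    have h2 := hB1 t
    simp only [E₂]
    split_ifs <;> constructor <;> omega
  have hsucc : ∀ t : ℤ, (t + 1) * M = t * M + M := fun t => by ring
  let X : ℤ → Option (Fin (q + 1)) → Set V := fun t o =>
    {v | ∃ y, (t * M ≤ y ∧ y ≤ t * M + E₁ t o) ∧ P y (L t o) = v}
  let Y : ℤ → Option (Fin (q + 1)) → Set V := fun t o =>
    {v | ∃ y, (t * M + E₂ t o ≤ y ∧ y < (t + 1) * M) ∧ P y (L (t + 1) o) = v}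
  have cX : ∀ t o, Conn G (X t o) := by
    intro t o
    have h1 := hE1 t o
    refine conn_line _ _ (t * M) ⟨le_rfl, by omega⟩ ?_ ?_ ?_
    · rintro x hx ⟨h2, h3⟩
      exact ⟨hx, by omega⟩
    · rintro x hx ⟨h2, h3⟩
      exact ⟨by omega, by omega⟩
    · intro x _ _
      exact vert x _ (hLle t o)
  have cY : ∀ t o, Conn G (Y t o) := by
    intro t o
    have h1 := hE2 t o
    have h4 := hsucc t
    refine conn_line _ _ (t * M + E₂ t o) ⟨le_rfl, by omega⟩ ?_ ?_ ?_
    · rintro x hx ⟨h2, h3⟩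
      exact ⟨hx, by omega⟩
    · rintro x hx ⟨h2, h3⟩
      exact ⟨by omega, by omega⟩
    · intro x _ _
      exact vert x _ (hLle (t + 1) o)
  have mv : ∀ t (i : Fin (q + 1)), L t (some i) ≠ L (t + 1) (some i) →
      ((wv (2 * q + 2) t = 2 * (i : ℕ) + 1 ∧ wv (2 * q + 2) (t + 1) = 2 * (i : ℕ) + 2) ∨
        (wv (2 * q + 2) t = 2 * (i : ℕ) + 2 ∧ wv (2 * q + 2) (t + 1) = 2 * (i : ℕ) + 1)) ∧
      L t (some i) = wv (2 * q + 2) (t + 1) ∧ L (t + 1) (some i) = wv (2 * q + 2) t :=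
    fun t i h => ln_move (wv_step hN t) h
  have cXY : ∀ t o, Conn G (X t o ∪ Y t o) := by
    intro t o
    have h1 := hE1 t o
    have h2 := hE2 t o
    have h4 := hsucc t
    by_cases hmv : L t o = L (t + 1) o
    · have e1 : E₁ t o = M - 1 := if_pos hmv
      have e2 : E₂ t o = 0 := if_pos hmv
      refine (cX t o).union (cY t o) ⟨t * M, ⟨le_rfl, by omega⟩, rfl⟩
        ⟨t * M + 1, ⟨by omega, by omega⟩, rfl⟩ ?_
      rw [← hmv]
      exact vert _ _ (hLle t o)
    · have e1 : E₁ t o = A t := if_neg hmv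
      have e2 : E₂ t o = B t := if_neg hmv
      refine (cX t o).union (cY t o) ⟨t * M + A t, ⟨by omega, by omega⟩, rfl⟩
        ⟨t * M + B t, ⟨by omega, by omega⟩, rfl⟩ ?_
      cases o with
      | none => exact hAB t
      | some i =>
        obtain ⟨h5, h6, h7⟩ := mv t i hmv
        rw [h6, h7]
        exact (hsw t i h5).2.1
  have hcross : ∀ t o o' y, L t o = L (t + 1) o' → y ≤ t * M + E₁ t o →
      t * M + E₂ t o' ≤ y → o = o' := by
    intro t o o' y h h1 h2
    by_contra hne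
    by_cases hmv : L t o = L (t + 1) o
    · exact hne (hLinj (t + 1) _ _ (hmv.symm.trans h))
    by_cases hmv' : L t o' = L (t + 1) o'
    · exact hne (hLinj t _ _ (h.trans hmv'.symm))
    have e1 : E₁ t o = A t := if_neg hmv
    have e2 : E₂ t o' = B t := if_neg hmv'
    have : A t < B t := by
      cases o with
      | some i => exact (hsw t i (mv t i hmv).1).1
      | none =>
        cases o' with
        | none => exact absurd rfl hne
        | some i => exact (hsw t i (mv t i hmv').1).1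
    omega
  refine ⟨fun a => X a.1 a.2 ∪ Y a.1 a.2, fun a => cXY a.1 a.2, ?_, ?_⟩
  · rintro ⟨t, o⟩ ⟨t', o'⟩ x hx hx'
    simp only at hx hx'
    have h1 := hE1 t o
    have h2 := hE2 t o
    have h1' := hE1 t' o'
    have h2' := hE2 t' o'
    have h3 := hsucc t
    have h3' := hsucc t'
    rcases hx with ⟨y, ⟨hy1, hy2⟩, hy⟩ | ⟨y, ⟨hy1, hy2⟩, hy⟩ <;>
    rcases hx' with ⟨z, ⟨hz1, hz2⟩, hz⟩ | ⟨z, ⟨hz1, hz2⟩, hz⟩
    · obtain ⟨h5, h6⟩ := inj _ _ _ _ (hLle _ _) (hLle _ _) (hy.trans hz.symm)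
      subst h5
      have ht : t = t' := slot_unique (y := y) hMpos (by omega) (by omega) (by omega) (by omega)
      subst ht
      rw [hLinj _ _ _ h6]
    · obtain ⟨h5, h6⟩ := inj _ _ _ _ (hLle _ _) (hLle _ _) (hy.trans hz.symm)
      subst h5
      have ht : t = t' := slot_unique (y := y) hMpos (by omega) (by omega) (by omega) (by omega)
      subst ht
      rw [hcross t o o' y h6 hy2 hz1]
    · obtain ⟨h5, h6⟩ := inj _ _ _ _ (hLle _ _) (hLle _ _) (hy.trans hz.symm)
      subst h5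
      have ht : t = t' := slot_unique (y := y) hMpos (by omega) (by omega) (by omega) (by omega)
      subst ht
      rw [hcross t o' o y h6.symm hz2 hy1]
    · obtain ⟨h5, h6⟩ := inj _ _ _ _ (hLle _ _) (hLle _ _) (hy.trans hz.symm)
      subst h5
      have ht : t = t' := slot_unique (y := y) hMpos (by omega) (by omega) (by omega) (by omega)
      subst ht
      rw [hLinj _ _ _ h6]
  · intro a b hab
    rw [Slot, SimpleGraph.fromRel_adj] at hab
    obtain ⟨hne, hab⟩ := hab
    have key : ∀ a b : ℤ × Option (Fin (q + 1)),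
        ((a.2 = b.2 ∧ b.1 = a.1 + 1) ∨
          (a.1 = b.1 ∧ a.2 = none ∧ ∃ i : Fin (q + 1), b.2 = some i ∧
            wv (2 * q + 2) a.1 = 2 * i + 1 ∧ wv (2 * q + 2) (a.1 + 1) = 2 * i + 2)) →
        ∃ x ∈ X a.1 a.2 ∪ Y a.1 a.2, ∃ z ∈ X b.1 b.2 ∪ Y b.1 b.2, G.Adj x z := by
      rintro ⟨t, o⟩ ⟨t', o'⟩ h
      rcases h with ⟨h1, h2⟩ | ⟨h1, h2, i, h3, h4, h5⟩
      · simp only at h1 h2
        subst h1 h2
        have h6 := hE2 t o
        have h7 := hE1 (t + 1) o
        have h8 := hsucc t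
        refine ⟨_, Or.inr ⟨(t + 1) * M - 1, ⟨?_, ?_⟩, rfl⟩, _,
          Or.inl ⟨(t + 1) * M - 1 + 1, ⟨?_, ?_⟩, rfl⟩, vert _ _ (hLle (t + 1) o)⟩
        · simp only; omega
        · simp only; omega
        · simp only; omega
        · simp only; omega
      · simp only at h1 h2 h3 h4 h5
        subst h1 h2 h3
        have hs := hsw t i (Or.inl ⟨h4, h5⟩)
        obtain ⟨s1, s2, s3, s4, s5, s6, s7⟩ := hs
        have h8 := hsucc t
        have hmv1 : L t none ≠ L (t + 1) none := by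
          change wv (2 * q + 2) t ≠ wv (2 * q + 2) (t + 1)
          omega
        have hmv2 : L t (some i) ≠ L (t + 1) (some i) := by
          change ln (wv (2 * q + 2) t) (some (i : ℕ)) ≠ ln (wv (2 * q + 2) (t + 1)) (some (i : ℕ))
          rw [h4, h5]
          simp only [ln]
          split_ifs <;> omega
        have e1 : E₂ t none = B t := if_neg hmv1
        have e2 : E₂ t (some i) = B t := if_neg hmv2
        refine ⟨_, Or.inr ⟨t * M + C₂ t, ⟨?_, ?_⟩, rfl⟩, _,
          Or.inr ⟨t * M + C₁ t, ⟨?_, ?_⟩, rfl⟩, ?_⟩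
        · simp only; omega
        · simp only; omega
        · simp only; omega
        · simp only; omega
        · simp only
          rw [(mv t i hmv2).2.2]
          exact s7.symm
    rcases hab with h | h
    · exact key a b h
    · obtain ⟨x, hx, z, hz, hxz⟩ := key b a h
      exact ⟨z, hz, x, hx, hxz.symm⟩

/-- The combinatorial half of CRX. -/
theorem star_of_walk {V : Type*} (G : SimpleGraph V) (q m : ℕ) (hm : 0 < m) (P : ℤ → ℕ → V)
    (inj : ∀ y y' j j', j ≤ 2 * q + 2 → j' ≤ 2 * q + 2 → P y j = P y' j' → y = y' ∧ j = j')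
    (vert : ∀ y j, j ≤ 2 * q + 2 → G.Adj (P y j) (P (y + 1) j))
    (hop : ∀ j, j < 2 * q + 2 → ∃ a d : ℤ, 0 ≤ a ∧ a < m ∧ |d| ≤ 1 ∧
      ∀ k : ℤ, G.Adj (P (a + k * m) j) (P (a + d + k * m) (j + 1)))
    (crs : ∀ i, i ≤ q → ∃ a : ℤ, 0 ≤ a ∧ a < m ∧ ∀ k : ℤ,
      G.Adj (P (a + k * m) (2 * i + 1)) (P (a + 1 + k * m) (2 * i + 2)) ∧
      G.Adj (P (a + 1 + k * m) (2 * i + 1)) (P (a + k * m) (2 * i + 2))) :
    Mn (StarZ (Fin q)) G :=
  (star_slot q).trans (slot_model G q m hm P inj vert hop crs)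

end Pool.Agent.Helper15.NW
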